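import Mathlib

set_option autoImplicit false

/-! Covers of edge-coloured balanced complete bipartite graphs by monochromatic trees. -/

namespace Pool.Agent.Results.MP_6f811f_co.BalancedTreeCovers

open Function

/-- Edge colouring `c` of the complete bipartite graph with parts `X` and `Y`: `c x y` is the colour
of the edge `xy`.  `colGraph c k` is the graph of the edges of colour `k`. -/
def colGraph {X Y K : Type} (c : X → Y → K) (k : K) : SimpleGraph (X ⊕ Y) where
  Adj u v := (∃ x y, u = Sum.inl x ∧ v = Sum.inr y ∧ c x y = k) ∨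
    (∃ x y, v = Sum.inl x ∧ u = Sum.inr y ∧ c x y = k)
  symm := ⟨fun _ _ h => h.symm⟩
  loopless := ⟨by
    rintro u (⟨x, y, rfl, h, -⟩ | ⟨x, y, rfl, h, -⟩) <;> exact Sum.inl_ne_inr h⟩

/-- `S` is the vertex set of a monochromatic tree `T`: a tree on the vertex set `S` all of whose
edges are edges of the complete bipartite graph of one colour `k`. -/
def MonoTree {X Y K : Type} (c : X → Y → K) (S : Set (X ⊕ Y)) : Prop :=
  ∃ (k : K) (T : SimpleGraph S), T.IsTree ∧ ∀ u v : S, T.Adj u v → (colGraph c k).Adj u v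

/-- all vertices can be covered by `t` monochromatic trees -/
def CoverBy {X Y K : Type} (c : X → Y → K) (t : ℕ) : Prop :=
  ∃ F : Fin t → Set (X ⊕ Y), (∀ i, MonoTree c (F i)) ∧ ∀ v, ∃ i, v ∈ F i

/-- the least number of monochromatic trees covering all vertices -/
noncomputable def coverNumber {X Y K : Type} (c : X → Y → K) : ℕ := sInf {t | CoverBy c t}

/-- `tc_r(K_{n,m})`: the maximum of the cover number over all `r`-edge-colourings of `K_{n,m}` -/
noncomputable def tc (r n m : ℕ) : ℕ :=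
  sSup (Set.range fun c : Fin n → Fin m → Fin r => coverNumber c)

/-! ### Basics -/

section basic

variable {X Y K : Type}

theorem adj_lr {c : X → Y → K} {k : K} {x : X} {y : Y} :
    (colGraph c k).Adj (Sum.inl x) (Sum.inr y) ↔ c x y = k := by
  constructor
  · rintro (⟨x', y', h1, h2, h3⟩ | ⟨x', y', h1, h2, h3⟩)
    · rw [Sum.inl.injEq] at h1; rw [Sum.inr.injEq] at h2; subst h1 h2; exact h3
    · exact absurd h1 (by simp)
  · intro h; exact Or.inl ⟨x, y, rfl, rfl, h⟩

theorem mono_iff {c : X → Y → K} {S : Set (X ⊕ Y)} :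
    MonoTree c S ↔ ∃ k, ((colGraph c k).induce S).Connected := by
  constructor
  · rintro ⟨k, T, hT, h⟩
    exact ⟨k, hT.connected.mono (fun u v huv => h u v huv)⟩
  · rintro ⟨k, h⟩
    obtain ⟨T, hT, hT'⟩ := h.exists_isTree_le
    exact ⟨k, T, hT', fun u v huv => hT huv⟩

/-- covers can be transferred along quotient maps -/
theorem cover_down {X' Y' K' : Type} [Nonempty K] (c : X → Y → K) (f : X' → X) (g : Y' → Y)
    (h : K → K') (hf : Surjective f) (hg : Surjective g) (hh : Injective h) {t : ℕ}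
    (hc : CoverBy (fun x y => h (c (f x) (g y))) t) : CoverBy c t := by
  classical
  obtain ⟨F, hF, hcov⟩ := hc
  refine ⟨fun i => Sum.map f g '' F i, fun i => ?_, fun v => ?_⟩
  · rw [mono_iff]
    obtain ⟨k', hk'⟩ := mono_iff.1 (hF i)
    obtain ⟨k, hk⟩ : ∃ k, ∀ k1, h k1 = k' → k1 = k := by
      by_cases hex : ∃ k, h k = k'
      · obtain ⟨k, hk⟩ := hex
        exact ⟨k, fun k1 h1 => hh (h1.trans hk.symm)⟩
      · exact ⟨Classical.arbitrary K, fun k1 h1 => absurd ⟨k1, h1⟩ hex⟩
    refine ⟨k, ?_⟩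
    let φ : ((colGraph (fun x y => h (c (f x) (g y))) k').induce (F i)) →g
        ((colGraph c k).induce (Sum.map f g '' F i)) :=
      ⟨fun u => ⟨Sum.map f g u.1, u.1, u.2, rfl⟩, by
        intro u v huv
        rcases huv with ⟨x, y, h1, h2, h3⟩ | ⟨x, y, h1, h2, h3⟩
        · left
          refine ⟨f x, g y, ?_, ?_, hk _ h3⟩
          · show Sum.map f g u.1 = _
            have : u.1 = Sum.inl x := h1
            rw [this]; rfl
          · show Sum.map f g v.1 = _
            have : v.1 = Sum.inr y := h2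
            rw [this]; rfl
        · right
          refine ⟨f x, g y, ?_, ?_, hk _ h3⟩
          · show Sum.map f g v.1 = _
            have : v.1 = Sum.inl x := h1
            rw [this]; rfl
          · show Sum.map f g u.1 = _
            have : u.1 = Sum.inr y := h2
            rw [this]; rfl⟩
    refine SimpleGraph.Connected.map φ ?_ hk'
    rintro ⟨_, u, hu, rfl⟩
    exact ⟨⟨u, hu⟩, rfl⟩
  · have : Surjective (Sum.map f g) := Sum.map_surjective.2 ⟨hf, hg⟩
    obtain ⟨u, rfl⟩ := this v
    obtain ⟨i, hi⟩ := hcov u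
    exact ⟨i, u, hi, rfl⟩

theorem cover_of_fintype {c : X → Y → K} {ι : Type} [Fintype ι] (F : ι → Set (X ⊕ Y))
    (hF : ∀ i, MonoTree c (F i)) (hc : ∀ v, ∃ i, v ∈ F i) : CoverBy c (Fintype.card ι) := by
  refine ⟨fun i => F ((Fintype.equivFin ι).symm i), fun i => hF _, fun v => ?_⟩
  obtain ⟨i, hi⟩ := hc v
  exact ⟨Fintype.equivFin ι i, by simpa using hi⟩

theorem coverNumber_le {c : X → Y → K} {t : ℕ} (h : CoverBy c t) : coverNumber c ≤ t :=
  Nat.sInf_le h

theorem mono_single [Nonempty K] (c : X → Y → K) (v : X ⊕ Y) : MonoTree c {v} := by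
  rw [mono_iff]
  refine ⟨Classical.arbitrary K, ?_⟩
  have : Nonempty ({v} : Set (X ⊕ Y)) := ⟨⟨v, rfl⟩⟩
  refine ⟨?_⟩
  rintro ⟨a, ha⟩ ⟨b, hb⟩
  rw [Set.mem_singleton_iff] at ha hb
  subst ha hb
  exact SimpleGraph.Reachable.refl _

theorem exists_cover [Fintype X] [Fintype Y] [Nonempty K] (c : X → Y → K) :
    ∃ t, CoverBy c t :=
  ⟨_, cover_of_fintype (fun v : X ⊕ Y => {v}) (fun v => mono_single c v) (fun v => ⟨v, rfl⟩)⟩

theorem coverNumber_spec [Fintype X] [Fintype Y] [Nonempty K] (c : X → Y → K) :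
    CoverBy c (coverNumber c) := Nat.sInf_mem (exists_cover c)

theorem bdd (r n m : ℕ) :
    BddAbove (Set.range fun c : Fin n → Fin m → Fin r => coverNumber c) :=
  (Set.finite_range _).bddAbove

theorem le_tc {r n m : ℕ} (c : Fin n → Fin m → Fin r) : coverNumber c ≤ tc r n m :=
  le_csSup (bdd r n m) ⟨c, rfl⟩

theorem tc_le {r n m t : ℕ} (hr : 1 ≤ r) (h : ∀ c : Fin n → Fin m → Fin r, CoverBy c t) :
    tc r n m ≤ t := by
  have : NeZero r := ⟨by omega⟩
  refine csSup_le ⟨_, ⟨fun _ _ => 0, rfl⟩⟩ ?_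
  rintro _ ⟨c, rfl⟩
  exact coverNumber_le (h c)

/-- **Transfer**: a colouring of any finite complete bipartite graph gives lower bounds for all
larger ones. -/
theorem transfer [Fintype X] [Fintype Y] [Fintype K] [Nonempty X] [Nonempty Y] (c : X → Y → K)
    {r n m : ℕ} (hX : Fintype.card X ≤ n) (hY : Fintype.card Y ≤ m) (hK : Fintype.card K ≤ r) :
    coverNumber c ≤ tc r n m := by
  classical
  have : Nonempty K := ⟨c (Classical.arbitrary X) (Classical.arbitrary Y)⟩
  obtain ⟨eX⟩ := Function.Embedding.nonempty_of_card_le (α := X) (β := Fin n) (by simpa using hX)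
  obtain ⟨eY⟩ := Function.Embedding.nonempty_of_card_le (α := Y) (β := Fin m) (by simpa using hY)
  obtain ⟨eK⟩ := Function.Embedding.nonempty_of_card_le (α := K) (β := Fin r) (by simpa using hK)
  have : Nonempty (Fin r) := ⟨eK (Classical.arbitrary K)⟩
  have hf : Surjective (invFun eX) := invFun_surjective eX.injective
  have hg : Surjective (invFun eY) := invFun_surjective eY.injective
  refine le_trans ?_ (le_tc (fun x y => eK (c (invFun eX x) (invFun eY y))))
  apply coverNumber_le
  exact cover_down c _ _ eK hf hg eK.injective (coverNumber_spec _)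

/-! ### Upper bounds -/

/-- the component of `v` in colour `k` -/
def comp (c : X → Y → K) (k : K) (v : X ⊕ Y) : Set (X ⊕ Y) := {u | (colGraph c k).Reachable v u}

theorem comp_mono (c : X → Y → K) (k : K) (v : X ⊕ Y) : MonoTree c (comp c k v) := by
  rw [mono_iff]
  refine ⟨k, ?_⟩
  have hv : v ∈ comp c k v := SimpleGraph.Reachable.refl _
  have key : ∀ (a b : X ⊕ Y) (p : (colGraph c k).Walk a b) (ha : a ∈ comp c k v)
      (hb : b ∈ comp c k v), ((colGraph c k).induce (comp c k v)).Reachable ⟨a, ha⟩ ⟨b, hb⟩ := by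
    intro a b p
    induction p with
    | nil => intro ha hb; exact SimpleGraph.Reachable.refl _
    | cons h p ih =>
      rename_i a b d
      intro ha hd
      have hb : b ∈ comp c k v := SimpleGraph.Reachable.trans ha h.reachable
      refine SimpleGraph.Reachable.trans ?_ (ih hb hd)
      exact SimpleGraph.Adj.reachable (G := (colGraph c k).induce (comp c k v))
        (u := ⟨a, ha⟩) (v := ⟨b, hb⟩) h
  rw [SimpleGraph.connected_iff_exists_forall_reachable]
  refine ⟨⟨v, hv⟩, ?_⟩
  rintro ⟨w, hw⟩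
  obtain ⟨p⟩ := hw
  exact key v w p _ _

theorem mem_comp_r {c : X → Y → K} {k : K} {x : X} {y : Y} (h : c x y = k) :
    Sum.inr y ∈ comp c k (Sum.inl x) := (adj_lr.2 h).reachable

theorem mem_comp_l {c : X → Y → K} {k : K} {x : X} {y : Y} {v : X ⊕ Y}
    (h : c x y = k) (hy : Sum.inr y ∈ comp c k v) : Sum.inl x ∈ comp c k v :=
  SimpleGraph.Reachable.trans hy (adj_lr.2 h).symm.reachable

theorem mem_comp_self {c : X → Y → K} {k : K} {v : X ⊕ Y} : v ∈ comp c k v :=
  SimpleGraph.Reachable.refl _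

/-- perfect matching -/
theorem cover_match {n : ℕ} (c : Fin n → Fin n → K) : CoverBy c n := by
  refine ⟨fun i => comp c (c i i) (Sum.inl i), fun i => comp_mono _ _ _, ?_⟩
  rintro (i | i)
  · exact ⟨i, mem_comp_self⟩
  · exact ⟨i, mem_comp_r rfl⟩

/-- the classical bound `2r - 1` -/
theorem cover_two_r [Fintype K] [DecidableEq K] [Nonempty X] [Nonempty Y] (c : X → Y → K) :
    CoverBy c (2 * Fintype.card K - 1) := by
  classical
  obtain ⟨x0⟩ := ‹Nonempty X›
  obtain ⟨y0⟩ := ‹Nonempty Y›
  have := cover_of_fintype (c := c) (ι := K ⊕ {k : K // k ≠ c x0 y0})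
    (fun i => match i with
      | Sum.inl k => comp c k (Sum.inl x0)
      | Sum.inr k => comp c k.1 (Sum.inr y0))
    (by rintro (k | k) <;> exact comp_mono _ _ _)
    (by
      rintro (x | y)
      · by_cases hk : c x y0 = c x0 y0
        · exact ⟨Sum.inl (c x0 y0), mem_comp_l hk (mem_comp_r rfl)⟩
        · exact ⟨Sum.inr ⟨c x y0, hk⟩, mem_comp_l rfl mem_comp_self⟩
      · exact ⟨Sum.inl (c x0 y), mem_comp_r rfl⟩)
  have hc : Fintype.card (K ⊕ {k : K // k ≠ c x0 y0}) = 2 * Fintype.card K - 1 := by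
    rw [Fintype.card_sum, Fintype.card_subtype_compl, Fintype.card_subtype_eq]
    have : 0 < Fintype.card K := Fintype.card_pos_iff.2 ⟨c x0 y0⟩
    omega
  rwa [hc] at this

/-- two colours: two trees suffice -/
theorem cover_two {n m : ℕ} (hn : 0 < n) (hm : 0 < m) (c : Fin n → Fin m → Fin 2) : CoverBy c 2 := by
  classical
  have two : ∀ a b : Fin 2, a ≠ b → ∀ d, d = a ∨ d = b := by decide
  have mk : ∀ (k1 k2 : Fin 2) (v1 v2 : Fin n ⊕ Fin m),
      (∀ v, v ∈ comp c k1 v1 ∨ v ∈ comp c k2 v2) → CoverBy c 2 := by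
    intro k1 k2 v1 v2 h
    refine ⟨![comp c k1 v1, comp c k2 v2], ?_, ?_⟩
    · intro i
      fin_cases i <;> exact comp_mono _ _ _
    · intro v
      rcases h v with h | h
      · exact ⟨0, h⟩
      · exact ⟨1, h⟩
  by_cases h1 : ∃ x k, ∀ y, c x y = k
  · obtain ⟨x, k, hx⟩ := h1
    by_cases h2 : ∃ x1, ∀ y, c x1 y ≠ k
    · obtain ⟨x1, hx1⟩ := h2
      obtain ⟨l, hl⟩ : ∃ l : Fin 2, l ≠ k := ⟨c x1 ⟨0, hm⟩, hx1 _⟩
      have hx1' : ∀ y, c x1 y = l := fun y => (two k l hl.symm _).resolve_left (hx1 y)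
      refine mk k l (Sum.inl x) (Sum.inl x1) ?_
      rintro (x' | y)
      · rcases two k l hl.symm (c x' ⟨0, hm⟩) with h | h
        · exact Or.inl (mem_comp_l h (mem_comp_r (hx _)))
        · exact Or.inr (mem_comp_l h (mem_comp_r (hx1' _)))
      · exact Or.inl (mem_comp_r (hx y))
    · push Not at h2
      refine mk k k (Sum.inl x) (Sum.inl x) ?_
      rintro (x' | y)
      · obtain ⟨y, hy⟩ := h2 x'
        exact Or.inl (mem_comp_l hy (mem_comp_r (hx _)))
      · exact Or.inl (mem_comp_r (hx y))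
  · push Not at h1
    obtain ⟨x0⟩ : Nonempty (Fin n) := ⟨⟨0, hn⟩⟩
    by_cases h2 : ∀ x, ∃ y, c x y = c x0 y
    · refine mk 0 1 (Sum.inl x0) (Sum.inl x0) ?_
      have hy : ∀ y, Sum.inr y ∈ comp c (c x0 y) (Sum.inl x0) := fun y => mem_comp_r rfl
      have key : ∀ (k : Fin 2) v, v ∈ comp c k (Sum.inl x0) →
          v ∈ comp c 0 (Sum.inl x0) ∨ v ∈ comp c 1 (Sum.inl x0) := by
        intro k v hv
        fin_cases k
        · exact Or.inl hv
        · exact Or.inr hv
      rintro (x | y)
      · obtain ⟨y, hxy⟩ := h2 x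
        exact key _ _ (mem_comp_l hxy (hy y))
      · exact key _ _ (hy y)
    · push Not at h2
      obtain ⟨x1, hx1⟩ := h2
      refine mk 0 0 (Sum.inl x0) (Sum.inl x1) ?_
      have hy : ∀ y, Sum.inr y ∈ comp c 0 (Sum.inl x0) ∨ Sum.inr y ∈ comp c 0 (Sum.inl x1) := by
        intro y
        rcases two 0 1 (by decide) (c x0 y) with h | h
        · exact Or.inl (mem_comp_r h)
        · rcases two 0 1 (by decide) (c x1 y) with h' | h'
          · exact Or.inr (mem_comp_r h')
          · exact absurd (h'.trans h.symm) (hx1 y)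
      rintro (x | y)
      · obtain ⟨y, hxy⟩ := h1 x 1
        have hxy0 : c x y = 0 := (two 0 1 (by decide) _).resolve_right hxy
        rcases hy y with h | h
        · exact Or.inl (mem_comp_l hxy0 h)
        · exact Or.inr (mem_comp_l hxy0 h)
      · exact hy y

/-! ### Lower bounds -/

/-- If at every `y` the edges have distinct colours, then every monochromatic tree is a star
centred in `X` (or a single vertex). -/
theorem star {c : X → Y → K} (hc : ∀ y, Injective fun x => c x y) [Nonempty X] [Nonempty Y]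
    {S : Set (X ⊕ Y)} (hS : MonoTree c S) :
    ∃ (i : X) (k : K), (∀ x, Sum.inl x ∈ S → x = i) ∧ ∀ y, Sum.inr y ∈ S → c i y = k := by
  obtain ⟨k, hk⟩ := mono_iff.1 hS
  by_cases hx : ∃ i, Sum.inl i ∈ S
  · obtain ⟨i, hi⟩ := hx
    have key : ∀ (a b : S) (p : ((colGraph c k).induce S).Walk a b),
        (a.1 = Sum.inl i ∨ ∃ y, a.1 = Sum.inr y ∧ c i y = k) →
        (b.1 = Sum.inl i ∨ ∃ y, b.1 = Sum.inr y ∧ c i y = k) := by
      intro a b p
      induction p with
      | nil => exact id
      | cons h p ih =>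
        intro ha
        apply ih
        rcases h with ⟨x, y, h1, h2, h3⟩ | ⟨x, y, h1, h2, h3⟩
        · rcases ha with ha | ⟨y', ha, -⟩
          · right
            have : (Sum.inl x : X ⊕ Y) = Sum.inl i := h1.symm.trans ha
            rw [Sum.inl.injEq] at this
            subst this
            exact ⟨y, h2, h3⟩
          · exact absurd (h1.symm.trans ha) (by simp)
        · rcases ha with ha | ⟨y', ha, hy'⟩
          · exact absurd (h2.symm.trans ha) (by simp)
          · left
            have : (Sum.inr y : X ⊕ Y) = Sum.inr y' := h2.symm.trans ha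
            rw [Sum.inr.injEq] at this
            subst this
            have : x = i := hc y (h3.trans hy'.symm)
            subst this
            exact h1
    refine ⟨i, k, fun x hx => ?_, fun y hy => ?_⟩
    · obtain ⟨p⟩ := hk.preconnected ⟨_, hi⟩ ⟨_, hx⟩
      rcases key _ _ p (Or.inl rfl) with h | ⟨y, h, -⟩
      · exact Sum.inl_injective h
      · exact absurd h (by simp)
    · obtain ⟨p⟩ := hk.preconnected ⟨_, hi⟩ ⟨_, hy⟩
      rcases key _ _ p (Or.inl rfl) with h | ⟨y', h, h'⟩
      · exact absurd h (by simp)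
      · have := Sum.inr_injective h
        rw [this]; exact h'
  · push Not at hx
    obtain ⟨i⟩ := ‹Nonempty X›
    obtain ⟨⟨v, hv⟩⟩ := hk.nonempty
    rcases v with x | y
    · exact absurd hv (hx x)
    · refine ⟨i, c i y, fun x hx' => absurd hx' (hx x), fun y' hy' => ?_⟩
      have key : ∀ (a b : S) (p : ((colGraph c k).induce S).Walk a b), a = b := by
        intro a b p
        cases p with
        | nil => rfl
        | cons h p =>
          exfalso
          rcases h with ⟨x, y, h1, h2, h3⟩ | ⟨x, y, h1, h2, h3⟩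
          · have := a.2
            rw [show a.1 = Sum.inl x from h1] at this
            exact hx x this
          · rename_i b'
            have := b'.2
            rw [show b'.1 = Sum.inl x from h1] at this
            exact hx x this
      obtain ⟨p⟩ := hk.preconnected ⟨_, hv⟩ ⟨_, hy'⟩
      have := congrArg Subtype.val (key _ _ p)
      rw [Sum.inr.injEq] at this
      rw [this]

/-- a lower bound for the cover number by blocking sets of cells -/
theorem lower [Fintype X] [Fintype Y] (c : X → Y → K) (hc : ∀ y, Injective fun x => c x y)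
    [Nonempty X] [Nonempty Y] {t : ℕ}
    (hP : ∀ (s : ℕ) (P : Fin s → X × K), (∀ x, ∃ i, (P i).1 = x) →
      (∀ y, ∃ i, c (P i).1 y = (P i).2) → t ≤ s) : t ≤ coverNumber c := by
  have : Nonempty K := ⟨c (Classical.arbitrary X) (Classical.arbitrary Y)⟩
  obtain ⟨F, hF, hcov⟩ := coverNumber_spec c
  choose i k h1 h2 using fun j => star hc (hF j)
  refine hP _ (fun j => (i j, k j)) (fun x => ?_) (fun y => ?_)
  · obtain ⟨j, hj⟩ := hcov (Sum.inl x)
    exact ⟨j, (h1 j x hj).symm⟩
  · obtain ⟨j, hj⟩ := hcov (Sum.inr y)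
    exact ⟨j, h2 j y hj⟩

/-- three colours: four trees suffice (this case of the Gyárfás–Lehel conjecture is known) -/
theorem cover_four {n m : ℕ} (hn : 0 < n) (hm : 0 < m) (c : Fin n → Fin m → Fin 3) :
    CoverBy c 4 := by
  classical
  have mk : ∀ (k : Fin 4 → Fin 3) (w : Fin 4 → Fin n ⊕ Fin m),
      (∀ v, ∃ i, v ∈ comp c (k i) (w i)) → CoverBy c 4 := fun k w h =>
    ⟨fun i => comp c (k i) (w i), fun i => comp_mono _ _ _, h⟩
  by_contra hno
  have hno' : ∀ (k : Fin 4 → Fin 3) (w : Fin 4 → Fin n ⊕ Fin m),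
      ∃ v, ∀ i, v ∉ comp c (k i) (w i) := by
    intro k w
    by_contra h
    push Not at h
    exact hno (mk k w h)
  have all3 : ∀ a b d : Fin 3, a ≠ b → a ≠ d → b ≠ d → ∀ e, e = a ∨ e = b ∨ e = d := by decide
  have ex3 : ∀ a : Fin 3, ∃ b d : Fin 3, a ≠ b ∧ a ≠ d ∧ b ≠ d := by decide
  have ex2 : ∀ a b : Fin 3, ¬ b = a → ∃ d : Fin 3, a ≠ d ∧ b ≠ d := by decide
  have x0 : Fin n := ⟨0, hn⟩
  have y0 : Fin m := ⟨0, hm⟩
  -- components at `x` cover all `y`
  have hxy : ∀ x y, Sum.inr y ∈ comp c (c x y) (Sum.inl x) := fun x y => mem_comp_r rfl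
  have hyx : ∀ x y, Sum.inl x ∈ comp c (c x y) (Sum.inr y) := fun x y =>
    mem_comp_l rfl mem_comp_self
  have csymm : ∀ {k} {u v : Fin n ⊕ Fin m}, v ∈ comp c k u → u ∈ comp c k v :=
    fun h => SimpleGraph.Reachable.symm h
  have ctrans : ∀ {k} {u v w : Fin n ⊕ Fin m}, v ∈ comp c k u → w ∈ comp c k v → w ∈ comp c k u :=
    fun h h' => SimpleGraph.Reachable.trans h h'
  -- a vertex shares exactly one component with each vertex of the other side
  have H1 : ∀ x y l, Sum.inr y ∈ comp c l (Sum.inl x) → l = c x y := by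
    intro x y l hl
    by_contra hne
    obtain ⟨d, hd1, hd2⟩ := ex2 (c x y) l hne
    obtain ⟨v, hv⟩ := hno' ![c x y, l, d, d] ![Sum.inl x, Sum.inl x, Sum.inl x, Sum.inr y]
    have h0 := hv 0
    have h1 := hv 1
    have h2 := hv 2
    have h3 := hv 3
    simp only [Matrix.cons_val_zero, Matrix.cons_val_one, Matrix.cons_val] at h0 h1 h2 h3
    rcases v with x' | y'
    · rcases all3 _ _ _ (Ne.symm hne) hd1 hd2 (c x' y) with h | h | h
      · exact h0 (ctrans (hxy x y) (h ▸ hyx x' y))
      · exact h1 (ctrans hl (h ▸ hyx x' y))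
      · exact h3 (h ▸ hyx x' y)
    · rcases all3 _ _ _ (Ne.symm hne) hd1 hd2 (c x y') with h | h | h
      · exact h0 (h ▸ hxy x y')
      · exact h1 (h ▸ hxy x y')
      · exact h2 (h ▸ hxy x y')
  -- two vertices in one component agree on their colours
  have H1' : ∀ x x' y l, Sum.inl x' ∈ comp c l (Sum.inl x) → c x y = l → c x' y = l := by
    intro x x' y l h h'
    exact (H1 x' y l (ctrans (csymm h) (h' ▸ hxy x y))).symm
  -- if two components cover all `y`, there is a cover
  have H0 : ∀ k (u : Fin n ⊕ Fin m) l (w : Fin n ⊕ Fin m),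
      (∀ y, Sum.inr y ∈ comp c k u ∨ Sum.inr y ∈ comp c l w) → False := by
    intro k u l w h
    have key : ∀ e (z : Fin n ⊕ Fin m), Sum.inr y0 ∈ comp c e z →
        (∀ y, Sum.inr y ∈ comp c k u ∨ Sum.inr y ∈ comp c l w) →
        (∀ v, v ∈ comp c e z → v ∈ comp c k u ∨ v ∈ comp c l w) → False := by
      intro e z he _ hz
      obtain ⟨b, d, h1, h2, h3⟩ := ex3 e
      obtain ⟨v, hv⟩ := hno' ![k, l, b, d] ![u, w, Sum.inr y0, Sum.inr y0]
      have g0 := hv 0
      have g1 := hv 1
      have g2 := hv 2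
      have g3 := hv 3
      simp only [Matrix.cons_val_zero, Matrix.cons_val_one, Matrix.cons_val] at g0 g1 g2 g3
      rcases v with x' | y'
      · rcases all3 _ _ _ h1 h2 h3 (c x' y0) with h' | h' | h'
        · rcases hz _ (ctrans he (h' ▸ hyx x' y0)) with h'' | h''
          · exact g0 h''
          · exact g1 h''
        · exact g2 (h' ▸ hyx x' y0)
        · exact g3 (h' ▸ hyx x' y0)
      · rcases h y' with h'' | h''
        · exact g0 h''
        · exact g1 h''
    rcases h y0 with h0 | h0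
    · exact key k u h0 h (fun v hv => Or.inl hv)
    · exact key l w h0 h (fun v hv => Or.inr hv)
  -- every `x` sees every colour
  have H2 : ∀ x l, ∃ y, c x y = l := by
    intro x l
    by_contra hcon
    push Not at hcon
    obtain ⟨b, d, h1, h2, h3⟩ := ex3 l
    refine H0 b (Sum.inl x) d (Sum.inl x) (fun y => ?_)
    rcases all3 _ _ _ h1 h2 h3 (c x y) with h | h | h
    · exact absurd h (hcon y)
    · exact Or.inl (h ▸ hxy x y)
    · exact Or.inr (h ▸ hxy x y)
  -- a vertex `x2` far from `x0`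
  obtain ⟨x2, hx2⟩ : ∃ x2, ∀ k, Sum.inl x2 ∉ comp c k (Sum.inl x0) := by
    obtain ⟨v, hv⟩ := hno' ![0, 1, 2, 2] ![Sum.inl x0, Sum.inl x0, Sum.inl x0, Sum.inl x0]
    have g0 := hv 0
    have g1 := hv 1
    have g2 := hv 2
    simp only [Matrix.cons_val_zero, Matrix.cons_val_one, Matrix.cons_val] at g0 g1 g2
    have hk : ∀ k, v ∉ comp c k (Sum.inl x0) := by
      intro k
      fin_cases k
      · exact g0
      · exact g1
      · exact g2
    rcases v with x' | y'
    · exact ⟨x', hk⟩
    · exact absurd (hxy x0 y') (hk _)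
  obtain ⟨x3, hx3, hx23⟩ : ∃ x3, (∀ k, Sum.inl x3 ∉ comp c k (Sum.inl x0)) ∧
      Sum.inl x3 ∉ comp c 0 (Sum.inl x2) := by
    obtain ⟨v, hv⟩ := hno' ![0, 1, 2, 0] ![Sum.inl x0, Sum.inl x0, Sum.inl x0, Sum.inl x2]
    have g0 := hv 0
    have g1 := hv 1
    have g2 := hv 2
    have g3 := hv 3
    simp only [Matrix.cons_val_zero, Matrix.cons_val_one, Matrix.cons_val] at g0 g1 g2 g3
    have hk : ∀ k, v ∉ comp c k (Sum.inl x0) := by
      intro k
      fin_cases k
      · exact g0
      · exact g1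
      · exact g2
    rcases v with x' | y'
    · exact ⟨x', hk, g3⟩
    · exact absurd (hxy x0 y') (hk _)
  -- sharing a colour at `y` puts two vertices in one component
  have S : ∀ x x' y, c x y = c x' y → Sum.inl x' ∈ comp c (c x y) (Sum.inl x) := by
    intro x x' y h
    exact ctrans (hxy x y) (h ▸ hyx x' y)
  have D02 : ∀ y, c x0 y ≠ c x2 y := fun y h => hx2 _ (S _ _ _ h)
  have D03 : ∀ y, c x0 y ≠ c x3 y := fun y h => hx3 _ (S _ _ _ h)
  have case1 : ∀ l : Fin 3, Sum.inl x3 ∈ comp c l (Sum.inl x2) →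
      (∀ l', l' ≠ l → Sum.inl x3 ∉ comp c l' (Sum.inl x2)) → False := by
    intro l hl hl'
    refine H0 l (Sum.inl x0) l (Sum.inl x2) (fun y => ?_)
    by_cases h0 : c x0 y = l
    · exact Or.inl (h0 ▸ hxy x0 y)
    by_cases h2 : c x2 y = l
    · exact Or.inr (h2 ▸ hxy x2 y)
    exfalso
    have h3 : c x3 y ≠ l := fun h3 => h2 (H1' x3 x2 y l (csymm hl) h3)
    have h23 : c x2 y ≠ c x3 y := fun h => hl' _ h2 (S _ _ _ h)
    have d02 := D02 y
    have d03 := D03 y
    revert h0 h2 h3 h23 d02 d03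
    generalize c x0 y = a0
    generalize c x2 y = a2
    generalize c x3 y = a3
    clear * -
    revert l a0 a2 a3
    decide
  by_cases e1 : Sum.inl x3 ∈ comp c 1 (Sum.inl x2)
  · by_cases e2 : Sum.inl x3 ∈ comp c 2 (Sum.inl x2)
    · obtain ⟨y, hy⟩ := H2 x2 0
      have h3 : c x3 y = 0 ∨ c x3 y = 1 ∨ c x3 y = 2 := by
        generalize c x3 y = a; revert a; decide
      rcases h3 with h3 | h3 | h3
      · exact hx23 (hy ▸ S x2 x3 y (hy.trans h3.symm))
      · have := H1' x3 x2 y 1 (csymm e1) h3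
        rw [hy] at this; exact absurd this (by decide)
      · have := H1' x3 x2 y 2 (csymm e2) h3
        rw [hy] at this; exact absurd this (by decide)
    · refine case1 1 e1 (fun l' hl' => ?_)
      fin_cases l'
      · exact hx23
      · exact absurd rfl hl'
      · exact e2
  · by_cases e2 : Sum.inl x3 ∈ comp c 2 (Sum.inl x2)
    · refine case1 2 e2 (fun l' hl' => ?_)
      fin_cases l'
      · exact hx23
      · exact e1
      · exact absurd rfl hl'
    · have far : ∀ l, Sum.inl x3 ∉ comp c l (Sum.inl x2) := by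
        intro l
        fin_cases l
        · exact hx23
        · exact e1
        · exact e2
      have D23 : ∀ y, c x2 y ≠ c x3 y := fun y h => far _ (S _ _ _ h)
      obtain ⟨v, hv⟩ := hno' ![0, 0, 0, 0] ![Sum.inl x0, Sum.inl x2, Sum.inl x3, Sum.inl x3]
      have g0 := hv 0
      have g1 := hv 1
      have g2 := hv 2
      simp only [Matrix.cons_val_zero, Matrix.cons_val_one, Matrix.cons_val] at g0 g1 g2
      have fin : ∀ y, Sum.inr y ∈ comp c 0 (Sum.inl x0) ∨ Sum.inr y ∈ comp c 0 (Sum.inl x2) ∨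
          Sum.inr y ∈ comp c 0 (Sum.inl x3) := by
        intro y
        have : c x0 y = 0 ∨ c x2 y = 0 ∨ c x3 y = 0 := by
          have d02 := D02 y
          have d03 := D03 y
          have d23 := D23 y
          revert d02 d03 d23
          generalize c x0 y = a0
          generalize c x2 y = a2
          generalize c x3 y = a3
          clear * -
          revert a0 a2 a3
          decide
        rcases this with h | h | h
        · exact Or.inl (h ▸ hxy x0 y)
        · exact Or.inr (Or.inl (h ▸ hxy x2 y))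
        · exact Or.inr (Or.inr (h ▸ hxy x3 y))
      rcases v with x' | y'
      · obtain ⟨y, hy⟩ := H2 x' 0
        rcases fin y with h | h | h
        · exact g0 (mem_comp_l hy h)
        · exact g1 (mem_comp_l hy h)
        · exact g2 (mem_comp_l hy h)
      · rcases fin y' with h | h | h
        · exact g0 h
        · exact g1 h
        · exact g2 h

end basic

/-- all injections from `R` hubs to `R + 1` colours: blocking sets of cells have size `≥ 2R` -/
theorem block_all {R : ℕ} {s : ℕ} (P : Fin s → Fin R × Fin (R + 1))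
    (hx : ∀ x, ∃ i, (P i).1 = x) (hy : ∀ f : Fin R ↪ Fin (R + 1), ∃ i, f (P i).1 = (P i).2) :
    2 * R ≤ s := by
  classical
  by_contra hlt
  push Not at hlt
  set Q : Finset (Fin R × Fin (R + 1)) := Finset.univ.image P with hQ
  have hQs : Q.card ≤ s := by
    refine (Finset.card_image_le).trans ?_
    simp
  have hmem : ∀ i, P i ∈ Q := fun i => Finset.mem_image_of_mem _ (Finset.mem_univ i)
  choose g hg using hx
  let A : Fin R → Finset (Fin (R + 1)) := fun x => Finset.univ.filter (fun k => (x, k) ∉ Q)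
  have hall : ∀ T : Finset (Fin R), T.card ≤ (T.biUnion A).card := by
    intro T
    by_contra hT
    push Not at hT
    have hTpos : 1 ≤ T.card := by omega
    have hTR : T.card ≤ R := by simpa using Finset.card_le_univ T
    -- the blocked columns
    set B : Finset (Fin (R + 1)) := (T.biUnion A)ᶜ with hB
    have hBcard : B.card = R + 1 - (T.biUnion A).card := by
      rw [hB, Finset.card_compl, Fintype.card_fin]
    have hBQ : ∀ x ∈ T, ∀ k ∈ B, (x, k) ∈ Q := by
      intro x hxT k hk
      by_contra hn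
      rw [hB, Finset.mem_compl, Finset.mem_biUnion] at hk
      exact hk ⟨x, hxT, Finset.mem_filter.2 ⟨Finset.mem_univ _, hn⟩⟩
    have hsub : (T ×ˢ B) ∪ (Tᶜ.image fun x => P (g x)) ⊆ Q := by
      intro z hz
      rcases Finset.mem_union.1 hz with hz | hz
      · obtain ⟨h1, h2⟩ := Finset.mem_product.1 hz
        exact hBQ _ h1 _ h2
      · obtain ⟨x, -, rfl⟩ := Finset.mem_image.1 hz
        exact hmem _
    have hdisj : Disjoint (T ×ˢ B) (Tᶜ.image fun x => P (g x)) := by
      rw [Finset.disjoint_left]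
      intro z hz hz'
      obtain ⟨x, hx, rfl⟩ := Finset.mem_image.1 hz'
      have h1 := (Finset.mem_product.1 hz).1
      rw [hg x] at h1
      exact (Finset.mem_compl.1 hx) h1
    have hinj : Set.InjOn (fun x => P (g x)) (Tᶜ : Finset (Fin R)) := by
      intro x _ x' _ h
      have := congrArg Prod.fst h
      simp only [hg] at this
      exact this
    have hcard := Finset.card_le_card hsub
    have hTc : Tᶜ.card = R - T.card := by rw [Finset.card_compl, Fintype.card_fin]
    rw [Finset.card_union_of_disjoint hdisj, Finset.card_product, Finset.card_image_of_injOn hinj,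
      hTc] at hcard
    obtain ⟨a, ha⟩ : ∃ a, T.card = a + 1 := ⟨T.card - 1, by omega⟩
    obtain ⟨b, hb⟩ : ∃ b, R = T.card + b := ⟨R - T.card, by omega⟩
    have hBc : b + 2 ≤ B.card := by omega
    have hmul : T.card * (b + 2) ≤ T.card * B.card := Nat.mul_le_mul_left _ hBc
    have h1 : T.card * (b + 2) + (R - T.card) ≤ s := by omega
    have h2 : R - T.card = b := by omega
    rw [h2, ha] at h1
    have h3 : (a + 1) * (b + 2) + b < 2 * (a + 1 + b) := by
      calc (a + 1) * (b + 2) + b ≤ s := h1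
        _ < 2 * R := hlt
        _ = 2 * (a + 1 + b) := by rw [hb, ha]
    nlinarith [Nat.zero_le (a * b)]
  obtain ⟨f, hf, hfA⟩ := (Finset.all_card_le_biUnion_card_iff_exists_injective A).1 hall
  obtain ⟨i, hi⟩ := hy ⟨f, hf⟩
  have := hfA (P i).1
  rw [Finset.mem_filter] at this
  apply this.2
  have h2 : ((P i).1, f (P i).1) = P i := by
    rw [show f (P i).1 = (P i).2 from hi]
  rw [h2]
  exact hmem i

/-- the hub colouring by lines over a finite field (a form of the theorem of Jamison and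
Brouwer–Schrijver on affine blocking sets) -/
theorem block_field {F : Type} [Field F] [Fintype F] {s : ℕ} (P : Fin s → Fˣ × F)
    (hx : ∀ x, ∃ i, (P i).1 = x) (hy : ∀ y : Fˣ × F, ∃ i, (y.1 : F) * (P i).1 + y.2 = (P i).2) :
    2 * (Fintype.card F - 1) ≤ s := by
  classical
  by_contra hlt
  push Not at hlt
  let g : MvPolynomial (Fin 2) F := ∏ i : Fin s,
    (MvPolynomial.C ((P i).1 : F) - MvPolynomial.C (P i).2 * MvPolynomial.X 0 - MvPolynomial.X 1)
  have hdeg : g.totalDegree ≤ s := by
    refine (MvPolynomial.totalDegree_finsetProd _ _).trans ?_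
    refine (Finset.sum_le_sum (g := fun _ => 1) (fun i _ => ?_)).trans (by simp)
    refine (MvPolynomial.totalDegree_sub _ _).trans (max_le ?_ ?_)
    · refine (MvPolynomial.totalDegree_sub _ _).trans (max_le ?_ ?_)
      · simp
      · refine (MvPolynomial.totalDegree_mul _ _).trans ?_
        rw [MvPolynomial.totalDegree_C, MvPolynomial.totalDegree_X]
    · rw [MvPolynomial.totalDegree_X]
  have hsum : ∑ z, MvPolynomial.eval z g = 0 := by
    apply MvPolynomial.sum_eval_eq_zero
    rw [Fintype.card_fin]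
    omega
  have heval : ∀ z : Fin 2 → F, MvPolynomial.eval z g =
      ∏ i : Fin s, (((P i).1 : F) - (P i).2 * z 0 - z 1) := by
    intro z
    simp [g, map_prod]
  rw [Finset.sum_eq_single (0 : Fin 2 → F)] at hsum
  · rw [heval] at hsum
    simp only [Pi.zero_apply, mul_zero, sub_zero] at hsum
    rw [Finset.prod_eq_zero_iff] at hsum
    obtain ⟨i, -, hi⟩ := hsum
    exact (P i).1.ne_zero hi
  · intro z _ hz
    rw [heval, Finset.prod_eq_zero_iff]
    by_cases h0 : z 0 = 0
    · have h1 : z 1 ≠ 0 := by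
        intro h1
        apply hz
        funext j
        fin_cases j
        · exact h0
        · exact h1
      obtain ⟨i, hi⟩ := hx (Units.mk0 (z 1) h1)
      refine ⟨i, Finset.mem_univ _, ?_⟩
      rw [hi, h0]
      simp
    · obtain ⟨i, hi⟩ := hy ((Units.mk0 (z 0) h0)⁻¹, -(z 1) * (z 0)⁻¹)
      refine ⟨i, Finset.mem_univ _, ?_⟩
      rw [Units.val_inv_eq_inv_val, Units.val_mk0] at hi
      rw [← hi]
      field_simp
      ring
  · intro h
    exact absurd (Finset.mem_univ _) h

/-! ### The theorem -/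

theorem tc_mono {r r' n n' m m' : ℕ} (hr : 1 ≤ r) (hn : 1 ≤ n) (hm : 1 ≤ m) (hr' : r ≤ r')
    (hn' : n ≤ n') (hm' : m ≤ m') : tc r n m ≤ tc r' n' m' := by
  have : NeZero r := ⟨by omega⟩
  have : Nonempty (Fin n) := ⟨⟨0, hn⟩⟩
  have : Nonempty (Fin m) := ⟨⟨0, hm⟩⟩
  refine csSup_le ⟨_, ⟨fun _ _ => 0, rfl⟩⟩ ?_
  rintro _ ⟨c, rfl⟩
  exact transfer c (by simpa using hn') (by simpa using hm') (by simpa using hr')

theorem tc_le_two {r n m : ℕ} (hr : 1 ≤ r) (hn : 1 ≤ n) (hm : 1 ≤ m) : tc r n m ≤ 2 * r - 1 := by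
  have : Nonempty (Fin n) := ⟨⟨0, hn⟩⟩
  have : Nonempty (Fin m) := ⟨⟨0, hm⟩⟩
  refine tc_le hr (fun c => ?_)
  simpa using cover_two_r c

theorem small {r n : ℕ} (hr : 1 ≤ r) (hn : n ≤ r) : tc r n n = n := by
  refine le_antisymm (tc_le hr (fun c => cover_match c)) ?_
  rcases Nat.eq_zero_or_pos n with rfl | hpos
  · exact Nat.zero_le _
  have : Nonempty (Fin n) := ⟨⟨0, hpos⟩⟩
  refine le_trans (lower (K := Fin r) (fun (x : Fin n) (_ : Fin n) => Fin.castLE hn x)
    (fun y x x' h => Fin.castLE_injective hn h) (fun s P hx _ => ?_)) (le_tc _)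
  have : Function.Surjective (fun i => (P i).1) := hx
  simpa using Fintype.card_le_of_surjective _ this

theorem all_r {r n : ℕ} (hr : 2 ≤ r) (hn : r.factorial ≤ n) : 2 * r - 2 ≤ tc r n n := by
  obtain ⟨R, rfl⟩ : ∃ R, r = R + 1 := ⟨r - 1, by omega⟩
  have hR : 1 ≤ R := by omega
  have : Nonempty (Fin R) := ⟨⟨0, hR⟩⟩
  have : Nonempty (Fin R ↪ Fin (R + 1)) := ⟨Fin.castSuccEmb⟩
  have hcard : Fintype.card (Fin R ↪ Fin (R + 1)) = (R + 1).factorial := by
    have h := Nat.factorial_mul_descFactorial (n := R + 1) (k := R) (by omega)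
    rw [show R + 1 - R = 1 by omega, Nat.factorial_one, one_mul] at h
    rw [Fintype.card_embedding_eq, Fintype.card_fin, Fintype.card_fin, h]
  refine le_trans (lower (X := Fin R) (Y := Fin R ↪ Fin (R + 1)) (K := Fin (R + 1))
    (fun x f => f x) (fun f => f.injective) (fun s P hx hy => ?_)) (transfer _ ?_ ?_ ?_)
  · have := block_all P hx hy
    omega
  · rw [Fintype.card_fin]
    have := Nat.self_le_factorial (R + 1)
    omega
  · rw [hcard]; exact hn
  · simp

theorem prime_pow {q r n : ℕ} (hq : IsPrimePow q) (hr : q ≤ r) (hn : q * (q - 1) ≤ n) :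
    2 * q - 2 ≤ tc r n n := by
  obtain ⟨p, k, hp, hk, rfl⟩ := hq
  have hp' : p.Prime := hp.nat_prime
  have : Fact p.Prime := ⟨hp'⟩
  let _ : Fintype (GaloisField p k) := Fintype.ofFinite _
  have hF : Fintype.card (GaloisField p k) = p ^ k := by
    rw [← Nat.card_eq_fintype_card]; exact GaloisField.card p k (by omega)
  classical
  have hu : Fintype.card (GaloisField p k)ˣ = p ^ k - 1 := by
    rw [Fintype.card_units, hF]
  have h1 : 1 < p ^ k := Nat.one_lt_pow (by omega) hp'.one_lt
  refine le_trans (lower (X := (GaloisField p k)ˣ)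
    (Y := (GaloisField p k)ˣ × GaloisField p k) (K := GaloisField p k)
    (fun x y => (y.1 : GaloisField p k) * x + y.2) ?_ (fun s P hx hy => ?_)) (transfer _ ?_ ?_ ?_)
  · intro y x x' h
    simp only [add_left_inj, mul_eq_mul_left_iff, Units.ne_zero, or_false] at h
    exact Units.ext h
  · have := block_field P hx hy
    rw [hF] at this
    omega
  · rw [hu]
    refine le_trans ?_ hn
    calc p ^ k - 1 = 1 * (p ^ k - 1) := (one_mul _).symm
      _ ≤ p ^ k * (p ^ k - 1) := Nat.mul_le_mul_right _ (by omega)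
  · rw [Fintype.card_prod, hu, hF, mul_comm]
    exact hn
  · rw [hF]; exact hr

/-- **Monochromatic tree covers of balanced complete bipartite graphs: exact values.** -/
theorem result :
    -- the value is `n` for `n ≤ r`
    (∀ r n, 1 ≤ r → n ≤ r → tc r n n = n) ∧
    -- the exact values for at most three colours
    (∀ n, 1 ≤ n → tc 1 n n = 1) ∧ (∀ n, 2 ≤ n → tc 2 n n = 2) ∧ (∀ n, 6 ≤ n → tc 3 n n = 4) ∧
    -- monotonicity
    (∀ r r' n n', 1 ≤ r → 1 ≤ n → r ≤ r' → n ≤ n' → tc r n n ≤ tc r' n' n') ∧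
    -- large balanced graphs attain the maximum over all complete bipartite graphs
    (∀ r, 1 ≤ r → ∃ N, ∀ n, N ≤ n → ∀ a b, 1 ≤ a → 1 ≤ b → tc r a b ≤ tc r n n) := by
  refine ⟨fun r n hr hn => small hr hn, fun n hn => ?_, fun n hn => ?_, fun n hn => ?_,
    fun r r' n n' hr hn hr' hn' => tc_mono hr hn hn hr' hn' hn', fun r hr => ?_⟩
  · refine le_antisymm (tc_le_two le_rfl hn hn) ?_
    calc 1 = tc 1 1 1 := (small le_rfl le_rfl).symm
      _ ≤ tc 1 n n := tc_mono le_rfl le_rfl le_rfl le_rfl hn hn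
  · refine le_antisymm (tc_le (by norm_num) (fun c => cover_two (by omega) (by omega) c)) ?_
    exact prime_pow (q := 2) Nat.prime_two.isPrimePow le_rfl hn
  · refine le_antisymm (tc_le (by norm_num) (fun c => cover_four (by omega) (by omega) c)) ?_
    exact prime_pow (q := 3) Nat.prime_three.isPrimePow le_rfl hn
  · -- the largest value of `tc r a b`
    obtain ⟨t, ⟨a, b, ha, hb, rfl⟩, ht⟩ :
        ∃ t, (∃ a b, 1 ≤ a ∧ 1 ≤ b ∧ tc r a b = t) ∧ ∀ t', (∃ a b, 1 ≤ a ∧ 1 ≤ b ∧ tc r a b = t') →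
          t' ≤ t := by
      classical
      have hbd : ∀ t', (∃ a b, 1 ≤ a ∧ 1 ≤ b ∧ tc r a b = t') → t' ≤ 2 * r - 1 := by
        rintro _ ⟨a, b, ha, hb, rfl⟩
        exact tc_le_two hr ha hb
      have hex : ∃ t', ∃ a b, 1 ≤ a ∧ 1 ≤ b ∧ tc r a b = t' := ⟨_, 1, 1, le_rfl, le_rfl, rfl⟩
      obtain ⟨t0, ht0⟩ := hex
      refine ⟨Nat.findGreatest (fun t => ∃ a b, 1 ≤ a ∧ 1 ≤ b ∧ tc r a b = t) (2 * r - 1),
        Nat.findGreatest_spec (P := fun t => ∃ a b, 1 ≤ a ∧ 1 ≤ b ∧ tc r a b = t)
          (hbd _ ht0) ht0, fun t' ht' => ?_⟩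
      exact Nat.le_findGreatest (hbd t' ht') ht'
    refine ⟨max a b, fun n hn a' b' ha' hb' => ?_⟩
    refine (ht _ ⟨a', b', ha', hb', rfl⟩).trans ?_
    exact tc_mono hr ha hb le_rfl ((le_max_left _ _).trans hn) ((le_max_right _ _).trans hn)

end Pool.Agent.Results.MP_6f811f_co.BalancedTreeCovers
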